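import Mathlib
import Pool.Agent.ABcf.Laps

set_option autoImplicit false

/-!
# The topological entropy of the slow (a,b)-continued fraction maps is continuous on `P`

Full positive answer to Q1 of MP_aaf517_an.
-/

namespace Pool.Agent.Results.MP_aaf517_an.EntropyContinuous

open Set Filter Topology OnePoint

/-- The parameter set `P = {(a,b) : a ≤ 0 ≤ b, b - a ≥ 1, -ab ≤ 1}`, with the topology induced
from the plane. -/
def P : Set (ℝ × ℝ) := {p | p.1 ≤ 0 ∧ 0 ≤ p.2 ∧ 1 ≤ p.2 - p.1 ∧ -(p.1 * p.2) ≤ 1}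

/-- The slow map `f_{a,b}` on the extended line `ℝ ∪ {∞}` (`p = (a,b)`):
`x + 1` for `x < a`, `-1/x` for `a ≤ x < b` (with `-1/0 = ∞`), `x - 1` for `x ≥ b`, and
`f(∞) = ∞`. -/
noncomputable def slow (p : ℝ × ℝ) : OnePoint ℝ → OnePoint ℝ
  | ∞ => ∞
  | (x : ℝ) =>
    if x < p.1 then ((x + 1 : ℝ) : OnePoint ℝ)
    else if x < p.2 then (if x = 0 then ∞ else ((-1 / x : ℝ) : OnePoint ℝ))
    else ((x - 1 : ℝ) : OnePoint ℝ)

/-- `Rep u z`: the point `u` of `[-1,1]` corresponds to the point `z` of `ℝ ∪ {∞}` under the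
homeomorphism `k(x) = x / (1 + |x|)`; both `-1` and `1` correspond to `∞`. -/
def Rep (u : Icc (-1 : ℝ) 1) : OnePoint ℝ → Prop
  | ∞ => (u : ℝ) = -1 ∨ (u : ℝ) = 1
  | (x : ℝ) => (u : ℝ) = x / (1 + |x|)

/-- `F : [-1,1] → [-1,1]` is the map `k ∘ f_{a,b} ∘ k⁻¹`. Where this value is `∞`, that is at
`-1`, at `1`, and (if `a ≤ 0 < b`) at `0`, either of `-1`, `1` is allowed. -/
def IsTilde (p : ℝ × ℝ) (F : Icc (-1 : ℝ) 1 → Icc (-1 : ℝ) 1) : Prop :=
  ∀ u z, Rep u z → Rep (F u) (slow p z)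

/-- The laps of `G : [-1,1] → [-1,1]`: the maximal intervals on which `G` is monotone. -/
def laps (G : Icc (-1 : ℝ) 1 → Icc (-1 : ℝ) 1) : Set (Set (Icc (-1 : ℝ) 1)) :=
  {J | Maximal (fun J => J.OrdConnected ∧ (MonotoneOn G J ∨ AntitoneOn G J)) J}

/-- The other usual convention: the maximal intervals on which `G` is monotone and
continuous. -/
def lapsC (G : Icc (-1 : ℝ) 1 → Icc (-1 : ℝ) 1) : Set (Set (Icc (-1 : ℝ) 1)) :=
  {J | Maximal (fun J => J.OrdConnected ∧ (MonotoneOn G J ∨ AntitoneOn G J) ∧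
    ContinuousOn G J) J}

/-- The function `(a,b) ↦ h_top(f_{a,b}) = lim (1/n) log #laps(f̃_{a,b}^n)` is well defined and
continuous on `P`. -/
theorem result :
    ∃ h : P → ℝ, Continuous h ∧ ∀ p : P,
      (∃ F, IsTilde (p : ℝ × ℝ) F) ∧
      ∀ F, IsTilde (p : ℝ × ℝ) F →
        (∀ n, (laps (F^[n])).Finite ∧ (lapsC (F^[n])).Finite) ∧
        Tendsto (fun n : ℕ => Real.log ((laps (F^[n])).ncard) / n) atTop (𝓝 (h p)) ∧
        Tendsto (fun n : ℕ => Real.log ((lapsC (F^[n])).ncard) / n) atTop (𝓝 (h p)) := by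
  refine ⟨fun p => Pool.Agent.ABcf.ent (p : ℝ × ℝ), ?_, ?_⟩
  · rw [continuous_iff_continuousAt]
    intro p₀
    refine Metric.tendsto_nhds.2 fun ε hε => ?_
    have h1 := Pool.Agent.ABcf.ent_near (p₀ := (p₀ : ℝ × ℝ)) p₀.2 ε hε
    have h2 : Tendsto (fun p : P => (p : ℝ × ℝ)) (𝓝 p₀) (𝓝 (p₀ : ℝ × ℝ)) :=
      continuous_subtype_val.tendsto p₀
    filter_upwards [h2.eventually h1] with p hp
    rw [Real.dist_eq]
    exact hp p.2
  · intro p
    have hp : Pool.Agent.ABcf.InP (p : ℝ × ℝ) := p.2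
    refine ⟨Pool.Agent.ABcf.IsTilde_exists _, fun F hF => ?_⟩
    have hF' : Pool.Agent.ABcf.IsTilde (p : ℝ × ℝ) F := hF
    refine ⟨fun n => ⟨?_, ?_⟩, ?_, ?_⟩
    · exact (Pool.Agent.ABcf.laps_upper (Pool.Agent.ABcf.adm_mono hp n hF')).1
    · exact (Pool.Agent.ABcf.laps_upper (Pool.Agent.ABcf.adm_cont hp n hF')).1
    · exact Pool.Agent.ABcf.lim_of_bounds hp (fun n => (laps (F^[n])).ncard)
        (fun n => (Pool.Agent.ABcf.laps_upper (Pool.Agent.ABcf.adm_mono hp n hF')).2)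
        (fun n y y' hy => Pool.Agent.ABcf.laps_lower hp hF'
          (Pool.Agent.ABcf.adm_mono hp n hF') hy)
    · exact Pool.Agent.ABcf.lim_of_bounds hp (fun n => (lapsC (F^[n])).ncard)
        (fun n => (Pool.Agent.ABcf.laps_upper (Pool.Agent.ABcf.adm_cont hp n hF')).2)
        (fun n y y' hy => Pool.Agent.ABcf.laps_lower hp hF'
          (Pool.Agent.ABcf.adm_cont hp n hF') hy)

end Pool.Agent.Results.MP_aaf517_an.EntropyContinuous
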